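import Pool.Agent.Lib.MP_1a91b9_ntT3.S9.Defs
import Pool.Agent.Lib.MP_1a91b9_ntT.S4.TwoAdic

/-!
# The `p`-part of the conjecture of Birch and Swinnerton-Dyer, with a rational quotient
-/

set_option autoImplicit false

namespace Pool.Agent.Lib.MP_1a91b9_ntT3.S9

open NumberField IsDedekindDomain WeierstrassCurve Pool.Agent.Lib.MP_1a91b9_ntT
open Pool.Agent.Lib.MP_1a91b9_ntT.S9 (Sha tam normFactor period)

open scoped Classical

variable {N : Type*} [Field N] [NumberField N]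

/-- The `p`-part of the conjecture of Birch and Swinnerton-Dyer for `W` over `N` when the
L-function does not vanish at `1`, in its strong form: the L-series of `W` has an entire
continuation `g` with `g 1 ≠ 0`, the groups `W(N)` and `Sha[p^∞]` are finite, and
`L(W, 1) √|D| / Ω = q * #Sha[p^∞] * ∏ c_v / #W(N)²` with a rational number `q` whose numerator and
denominator are prime to `p` (the regulator is `1`). -/
def PPartQ (p : ℕ) [Fact p.Prime] (W : WeierstrassCurve N) : Prop :=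
  ∃ (g : ℂ → ℂ) (q : ℚ), Differentiable ℂ g ∧ (∀ s : ℂ, 3 / 2 < s.re → g s = W.LSeries s) ∧
    g 1 ≠ 0 ∧ Finite W.toAffine.Point ∧ Finite (ShaP p W) ∧ IsCoprime q.num (p : ℤ) ∧
    q.den.Coprime p ∧
    g 1 * (√|(discr N : ℝ)| : ℝ) / (period W : ℝ) =
      (q * ((Nat.card (ShaP p W) : ℝ) * ((∏ᶠ v : HeightOneSpectrum (𝓞 N), tam W v : ℕ) : ℝ) /
        (Nat.card W.toAffine.Point : ℝ) ^ 2) : ℝ)

/-- The `p`-part of the formula of Birch and Swinnerton-Dyer for `W` over `N` when the regulator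
is `1`, where `g` is the continuation of the L-series of `W`:
`g(1) √|D| / Ω = q * #Sha[p^∞] * ∏ c_v / #W(N)²` with a rational number `q` whose numerator and
denominator are prime to `p`. -/
def FormulaQ (p : ℕ) [Fact p.Prime] (W : WeierstrassCurve N) (g : ℂ → ℂ) : Prop :=
  ∃ q : ℚ, IsCoprime q.num (p : ℤ) ∧ q.den.Coprime p ∧
    g 1 * (√|(discr N : ℝ)| : ℝ) / (period W : ℝ) =
      (q * ((Nat.card (ShaP p W) : ℝ) * ((∏ᶠ v : HeightOneSpectrum (𝓞 N), tam W v : ℕ) : ℝ) /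
        (Nat.card W.toAffine.Point : ℝ) ^ 2) : ℝ)

/-- A rational number which becomes integral after multiplication by an integer prime to `p` has
denominator prime to `p`. -/
theorem den_coprime {p : ℕ} {q : ℚ}
    (h : ∃ m : ℤ, IsCoprime m (p : ℤ) ∧ IsIntegral ℤ ((m : ℝ) * (q : ℝ))) : q.den.Coprime p := by
  obtain ⟨m, hm, hi⟩ := h
  have h1 : IsIntegral ℤ ((m : ℚ) * q) := by
    rw [← isIntegral_algebraMap_iff (algebraMap ℚ ℝ).injective]
    simpa using hi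
  obtain ⟨k, hk⟩ := IsIntegrallyClosed.isIntegral_iff.1 h1
  have hk' : (k : ℚ) = (m : ℚ) * q := hk
  have h2 : (k : ℚ) * (q.den : ℚ) = (m : ℚ) * (q.num : ℚ) := by
    rw [hk', mul_assoc, Rat.mul_den_eq_num]
  have h3 : k * (q.den : ℤ) = m * q.num := by exact_mod_cast h2
  have h4 : (q.den : ℤ) ∣ m * q.num := ⟨k, by linarith⟩
  have h5 : IsCoprime (q.den : ℤ) q.num := by
    rw [isCoprime_comm, Int.isCoprime_iff_gcd_eq_one]
    exact q.reduced
  have h6 : (q.den : ℤ) ∣ m := h5.dvd_of_dvd_mul_right h4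
  obtain ⟨c, rfl⟩ := h6
  have h7 : IsCoprime (q.den : ℤ) (p : ℤ) := IsCoprime.of_mul_left_left hm
  exact Nat.isCoprime_iff_coprime.1 h7

theorem num_coprime {p : ℕ} {q : ℚ} (hq : q ≠ 0)
    (h : ∃ m : ℤ, IsCoprime m (p : ℤ) ∧ IsIntegral ℤ ((m : ℝ) * (q : ℝ)⁻¹)) :
    IsCoprime q.num (p : ℤ) := by
  have h1 : (q⁻¹).den.Coprime p := den_coprime (by
    push_cast
    exact h)
  have h2 : (q⁻¹).den = q.num.natAbs := by
    rw [Rat.den_inv_of_ne_zero hq]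
  rw [h2] at h1
  rw [Int.isCoprime_iff_gcd_eq_one]
  have h3 : Nat.gcd q.num.natAbs p = 1 := h1
  rw [Int.gcd, Int.natAbs_natCast]
  exact h3

theorem rat_normFactor (W : WeierstrassCurve N) :
    ∃ q : ℚ, (q : ℝ) = ∏ᶠ v : HeightOneSpectrum (𝓞 N), normFactor W v := by
  refine finprod_induction (p := fun x : ℝ => ∃ q : ℚ, (q : ℝ) = x) ⟨1, by norm_num⟩ ?_ ?_
  · rintro x y ⟨a, rfl⟩ ⟨b, rfl⟩
    exact ⟨a * b, by push_cast; ring⟩
  · intro v
    exact ⟨(Ideal.absNorm v.asIdeal : ℚ) ^ (-(WithZero.log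
      (Valued.v ((MP_1a91b9_ntT.S9.minChange W v).u : v.adicCompletion N)))), by
        rw [normFactor]; push_cast; rfl⟩

theorem finprod_normFactor_ne (W : WeierstrassCurve N) :
    ∏ᶠ v : HeightOneSpectrum (𝓞 N), normFactor W v ≠ 0 := by
  refine finprod_induction (p := fun x : ℝ => x ≠ 0) one_ne_zero
    (fun _ _ => mul_ne_zero) fun v => ?_
  rw [normFactor]
  refine zpow_ne_zero _ ?_
  have := Ideal.absNorm_ne_zero_iff_mem_nonZeroDivisors.mpr
    (mem_nonZeroDivisors_iff_ne_zero.mpr v.ne_bot)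
  exact_mod_cast this

/-- The rational form of the `p`-part from the algebraic form and the rationality of
`L(W, 1) √|D| / ∏ Ω_v`. -/
theorem ppartQ_of {p : ℕ} [Fact p.Prime] {W : WeierstrassCurve N} (hW : PPart p W)
    (hr : ∃ (g : ℂ → ℂ) (q : ℚ), Differentiable ℂ g ∧ (∀ s : ℂ, 2 < s.re → g s = W.LSeries s) ∧
      g 1 * (√|(discr N : ℝ)| : ℝ) = (q : ℂ) * (∏ v : InfinitePlace N, Per.perAt W v : ℝ)) :
    PPartQ p W := by
  obtain ⟨g, x, hg, hgs, hg1, hf, hs, hx, he⟩ := hW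
  obtain ⟨g', q, hg', hgs', hq⟩ := hr
  have hgg : g = g' := S4.entire_eq hg hg' fun s hs => by
    rw [hgs s (by linarith), hgs' s hs]
  rw [← hgg] at hq
  obtain ⟨φ, hφ⟩ := rat_normFactor W
  obtain ⟨T, hT⟩ : ∃ T : ℕ, T = ∏ᶠ v : HeightOneSpectrum (𝓞 N), tam W v := ⟨_, rfl⟩
  obtain ⟨P, hP⟩ : ∃ P : ℝ, P = ∏ v : InfinitePlace N, Per.perAt W v := ⟨_, rfl⟩
  have hper : period W = (φ : ℝ) * P := by rw [hφ, hP]; rfl
  obtain ⟨C, hC⟩ : ∃ C : ℕ, C = Nat.card W.toAffine.Point := ⟨_, rfl⟩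
  obtain ⟨S, hS⟩ : ∃ S : ℕ, S = Nat.card (ShaP p W) := ⟨_, rfl⟩
  rw [hper, ← hT, ← hC, ← hS] at he
  rw [← hP] at hq
  have hD : (√|(discr N : ℝ)| : ℝ) ≠ 0 := by
    rw [Real.sqrt_ne_zero (abs_nonneg _)]
    exact abs_ne_zero.2 (by exact_mod_cast discr_ne_zero N)
  have hD' : ((√|(discr N : ℝ)| : ℝ) : ℂ) ≠ 0 := by exact_mod_cast hD
  have hqP : (q : ℂ) * (P : ℂ) ≠ 0 := by
    rw [← hq]
    exact mul_ne_zero hg1 hD'
  have hP0 : (P : ℂ) ≠ 0 := right_ne_zero_of_mul hqP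
  rw [hq] at he
  -- the real identity
  have he2 : (((q : ℝ) / (φ : ℝ) : ℝ) : ℂ) =
      ((x * ((S : ℝ) * (T : ℝ) / (C : ℝ) ^ 2) : ℝ) : ℂ) := by
    rw [← he]
    push_cast
    field_simp
  have he3 : (q : ℝ) / (φ : ℝ) = x * ((S : ℝ) * (T : ℝ) / (C : ℝ) ^ 2) := by exact_mod_cast he2
  by_cases hz : (S : ℝ) * (T : ℝ) / (C : ℝ) ^ 2 = 0
  · exfalso
    rw [hz, mul_zero, div_eq_zero_iff, hφ] at he3
    rcases he3 with h0 | h0
    · exact left_ne_zero_of_mul hqP (by exact_mod_cast h0)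
    · exact finprod_normFactor_ne W h0
  · obtain ⟨r, hr⟩ : ∃ r : ℚ, (r : ℝ) = x :=
      ⟨q / φ / ((S : ℚ) * (T : ℚ) / (C : ℚ) ^ 2), by
        push_cast
        rw [he3, mul_div_assoc, div_self hz, mul_one]⟩
    obtain ⟨hx0, hx1, hx2⟩ := hx
    rw [← hr] at hx1 hx2
    have hr0 : r ≠ 0 := by
      rintro rfl
      exact hx0 (by rw [← hr]; norm_num)
    refine ⟨g, r, hg, hgs, hg1, hf, hs, num_coprime hr0 hx2, den_coprime hx1, ?_⟩
    rw [hper, ← hT, ← hC, ← hS, hq, hr]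
    exact he

end Pool.Agent.Lib.MP_1a91b9_ntT3.S9
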