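import Pool.Agent.Lib.MP_1a91b9_ntT.Rg.Lv
import Pool.Agent.Lib.MP_1a91b9_ntT3.S9.Pa
import Pool.Agent.Lib.MP_1a91b9_ntT3.Final

/-!
# The absolute value of `E1(1 / (ω - 2))` in terms of the periods
-/

set_option autoImplicit false

namespace Pool.Agent.Lib.MP_1a91b9_ntT3.R3

open NumberField Pool.Agent.Lib.MP_1a91b9_ntT Pool.Agent.Lib.MP_1a91b9_ntT.S3
  Pool.Agent.Lib.MP_1a91b9_ntT.Ell Pool.Agent.Lib.MP_1a91b9_ntT3.S3L
  Pool.Agent.Lib.MP_1a91b9_ntT3.S9 Pool.Agent.Lib.MP_1a91b9_ntG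

theorem norm_lin (a b : ℝ) : ‖(a : ℂ) + b * zt‖ ^ 2 = a ^ 2 - a * b + b ^ 2 := by
  have h : ((‖(a : ℂ) + b * zt‖ ^ 2 : ℝ) : ℂ) = ((a ^ 2 - a * b + b ^ 2 : ℝ) : ℂ) := by
    rw [← Complex.normSq_eq_norm_sq, ← Complex.mul_conj, map_add, map_mul, Complex.conj_ofReal,
      Complex.conj_ofReal, conj_zt]
    push_cast
    linear_combination (a * b : ℂ) * zt_quad + (b ^ 2 : ℂ) * zt_cube
  exact_mod_cast h

theorem norm_X : ‖X z0‖ ^ 6 = 1 / 7 := by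
  have h1 : ‖(3 : ℂ) + 2 * zt‖ ^ 2 = 7 := by
    have h := norm_lin 3 2
    norm_num at h
    exact h
  have h2 := congrArg (fun z => ‖z‖ ^ 2) X_z0_cube
  simp only [norm_mul, norm_pow, norm_zt, mul_pow, h1, one_pow] at h2
  rw [← pow_mul] at h2
  norm_num at h2
  linarith

/-- The relation between `E1(1 / (ω - 2))`, the period lattice and the discriminant of the curve
`E49`. -/
theorem norm_kap : ‖E1 z0‖ ^ 2 * t7 = ‖Om‖ ^ 2 / 7 := by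
  have hO : ‖Om‖ ≠ 0 := norm_ne_zero_iff.2 Om_ne_zero
  have hO' : 0 < ‖Om‖ := norm_pos_iff.2 Om_ne_zero
  have h1 : ‖zt ^ 2 - 2‖ ^ 2 = 7 := by
    have h := norm_lin (-3) (-1)
    have e : (((-3 : ℝ) : ℂ) + ((-1 : ℝ) : ℂ) * zt) = zt ^ 2 - 2 := by
      push_cast
      linear_combination -zt_quad
    rw [e] at h
    rw [h]
    norm_num
  have h2 : ‖lam‖ ^ 2 = 3 := by
    have h := congrArg (fun z => ‖z‖) lam_sq
    simp only [norm_pow, norm_neg] at h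
    rw [h]
    norm_num
  have h3 := congrArg (fun z => ‖z‖ ^ 6) E1_z0_sq
  simp only [norm_mul, norm_pow, norm_neg, norm_div, norm_zt, one_mul, mul_pow] at h3
  rw [norm_X, h1] at h3
  have h4 : ‖lam‖ ^ 6 = 27 := by
    rw [show (6 : ℕ) = 2 * 3 by norm_num, pow_mul, h2]
    norm_num
  rw [h4] at h3
  have h5 := t7_pow
  have h6 : (‖E1 z0‖ ^ 2 * t7) ^ 6 = (‖Om‖ ^ 2 / 7) ^ 6 := by
    rw [mul_pow, div_pow]
    have h7 : ((‖E1 z0‖ / ‖Om‖) ^ 2) ^ 6 = 27 * (1 / 7) / 7 ^ 6 := by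
      field_simp at h3 ⊢
      linear_combination h3
    have h8 : (‖E1 z0‖ ^ 2) ^ 6 = 27 * (1 / 7) / 7 ^ 6 * (‖Om‖ ^ 2) ^ 6 := by
      rw [← h7, div_pow, div_pow]
      field_simp
    rw [h8]
    linear_combination (1 / 7 / 7 ^ 6 * (‖Om‖ ^ 2) ^ 6) * h5
  exact (pow_left_inj₀ (by have := t7_pos; positivity) (by positivity) (by norm_num)).1 h6

theorem E1_z0_ne : E1 z0 ≠ 0 := by
  intro h
  have h1 := norm_kap
  have hO' : 0 < ‖Om‖ := norm_pos_iff.2 Om_ne_zero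
  rw [h, norm_zero] at h1
  have : 0 < ‖Om‖ ^ 2 / 7 := by positivity
  rw [← h1] at this
  norm_num at this

theorem kap_pi : Rg.Kap piO (E1 z0) := by
  have e : (1 : ℂ) / embK (piO : K) = z0 := by rw [embK_piO, z0]
  rw [← e]
  refine Rg.kap_mod piO ?_
  rw [e]
  exact E1_z0_ne

end Pool.Agent.Lib.MP_1a91b9_ntT3.R3
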