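import Pool.Agent.Lib.MP_1a91b9_ntT.Rq.Fin
import Pool.Agent.Lib.MP_1a91b9_ntT3.R3.Defs
import Pool.Agent.Lib.MP_1a91b9_ntT3.R3.Ka
import Pool.Agent.Lib.MP_1a91b9_ntT3.S9.Fin

/-!
# The quotient `L(E49/F, 1) √|D| / Ω` is a rational number prime to `3`
-/

set_option autoImplicit false

namespace Pool.Agent.Lib.MP_1a91b9_ntT3.R3

open NumberField IsDedekindDomain Pool.Agent.Lib.MP_1a91b9_ntT
  Pool.Agent.Lib.MP_1a91b9_ntT.Ell Pool.Agent.Lib.MP_1a91b9_ntT3.S3L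
  Pool.Agent.Lib.MP_1a91b9_ntT3.S9 Pool.Agent.Lib.MP_1a91b9_ntG
open Pool.Agent.Lib.MP_1a91b9_ntT.Rq (dt disc_K normSq_rat)
open Pool.Agent.Lib.MP_1a91b9_ntT.S4 (Lf differentiable_conj_conj)

universe u

theorem rat3 (F : Type u) [Field F] [NumberField F] [Algebra K F] (h : TowerK3 F) :
    ∃ (g : ℂ → ℂ) (q : ℚ), Differentiable ℂ g ∧ (∀ s : ℂ, 2 < s.re → g s = (E49 F).LSeries s) ∧
      g 1 * (√|(discr F : ℝ)| : ℝ) =
        (q : ℂ) * (∏ v : InfinitePlace F, Per.perAt (E49 F) v : ℝ) := by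
  have hG : S5.Good F (algebraMap K F om) := S5.tower_good h
  have hE : E49 F = S5.EC (algebraMap K F om) := by
    simp only [E49, S5.EC, map_add, map_mul, map_one, map_ofNat]
  have hex := nf_exists (F := F)
  obtain ⟨m, hm⟩ : ∃ m, Module.finrank K F = m + 1 :=
    Nat.exists_eq_succ_of_ne_zero Module.finrank_pos.ne'
  rw [hm] at hex
  obtain ⟨σ, hσ⟩ := hex
  set bb : Module.Basis (Fin (m + 1)) K F := Module.finBasisOfFinrankEq K F hm
  obtain ⟨L, x, hL, hL1, hLv⟩ := Rg.lval piO kap_pi σ hσ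
    (fun v hv k hk hvk => S8.units_tor_tower h (Ideal.span {up piO F}) le_rfl v hv k hk hvk) bb
  obtain ⟨q0, hq0, hdisc⟩ := disc_K σ hσ bb
  obtain ⟨q1, hq1⟩ := normSq_rat x
  have hcard : Fintype.card (InfinitePlace F) = m + 1 := by
    rw [finrank_eq F hG.hom, hm]
  have hP := prod_perAt3 (N := F) hG.hom
  rw [hcard] at hP
  have hg1 : (starRingEnd ℂ) (L ((starRingEnd ℂ) 1)) * L 1 = ((‖L 1‖ ^ 2 : ℝ) : ℂ) := by
    rw [map_one, mul_comm, Complex.mul_conj, Complex.normSq_eq_norm_sq]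
  obtain ⟨DD, hDD⟩ : ∃ z : ℤ, z = |discr F| := ⟨_, rfl⟩
  have hs3 : 0 < √3 := Real.sqrt_pos.2 (by norm_num)
  have ht7 := t7_pos
  refine ⟨fun s => (starRingEnd ℂ) (L ((starRingEnd ℂ) s)) * L s,
    q1 * q0 * (DD : ℚ) / 21 ^ (m + 1), (differentiable_conj_conj hL).mul hL, fun s hs => ?_, ?_⟩
  · change (starRingEnd ℂ) (L ((starRingEnd ℂ) s)) * L s = _
    rw [ef_series F h s hs, hL1 s hs, hL1 _ (by rw [Complex.conj_re]; exact hs), ← Lf_conj3]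
  · change (starRingEnd ℂ) (L ((starRingEnd ℂ) 1)) * L 1 * _ = _
    have key : ‖L 1‖ ^ 2 * √|(discr F : ℝ)| =
        (q1 * q0 * (DD : ℝ) / 21 ^ (m + 1)) * (√3 * ‖Om‖ ^ 2 / t7) ^ (m + 1) := by
      rw [hDD, Int.cast_abs]
      have hO : ‖Om‖ ^ 2 = 7 * (‖E1 z0‖ ^ 2 * t7) := by
        rw [norm_kap]
        ring
      have e : √3 * ‖Om‖ ^ 2 / t7 = √3 * 7 * ‖E1 z0‖ ^ 2 := by
        rw [hO]
        field_simp
      have h21 : (21 : ℝ) ^ (m + 1) = 7 ^ (m + 1) * (√3 ^ (m + 1) * √3 ^ (m + 1)) := by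
        rw [← mul_pow, ← mul_pow, Real.mul_self_sqrt (by norm_num)]
        norm_num
      have hD : |(discr F : ℝ)| = √|(discr F : ℝ)| * √|(discr F : ℝ)| :=
        (Real.mul_self_sqrt (abs_nonneg _)).symm
      have hLn : ‖L 1‖ ^ 2 = (‖E1 z0‖ ^ 2) ^ (m + 1) * ‖dt σ bb‖ ^ 2 * q1 := by
        rw [hLv, norm_mul, norm_mul, norm_pow, hq1]
        ring
      rw [hLn, e, h21, mul_pow, mul_pow]
      have h3 : √3 ^ (m + 1) ≠ 0 := (pow_pos hs3 _).ne'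
      set r : ℝ := √|(discr F : ℝ)| with hr
      rw [hD]
      field_simp
      linear_combination ((‖E1 z0‖ ^ 2) ^ (m + 1) * q1 * r) * hdisc
    rw [hg1, hE, hP, ← Complex.ofReal_mul, key]
    push_cast
    ring

/-- The 3-part of the conjecture of Birch and Swinnerton-Dyer, strong form. -/
theorem ppartQ3 (F : Type u) [Field F] [NumberField F] [Algebra K F]
    (h : TowerK3 F) : PPartQ 3 (E49 F) :=
  ppartQ_of (ppart3 F h) (rat3 F h)

end Pool.Agent.Lib.MP_1a91b9_ntT3.R3
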