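import Pool.Agent.Lib.MP_1a91b9_ntT3.R3.Fin
import Pool.Agent.Lib.MP_1a91b9_ntT3.S9.Res

/-!
# The results with a rational quotient in an intrinsic form
-/

set_option autoImplicit false

namespace Pool.Agent.Lib.MP_1a91b9_ntT3.S9

open NumberField IsDedekindDomain WeierstrassCurve
open Pool.Agent.Lib.MP_1a91b9_ntT.S9 (Sha tam normFactor period)
open scoped Classical

universe u

/-- All the results of the tower, for any model of the base field, with a rational quotient. -/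
theorem all_resultsQ (K F M : Type u) [Field K] [NumberField K] [Field F] [NumberField F]
    [Field M] [NumberField M] [Algebra K F] [Algebra K M] [Algebra F M] [IsScalarTower K F M]
    [IsGalois K M] (hK : Module.finrank ℚ K = 2) (w : 𝓞 K) (hw : w ^ 2 + w + 1 = 0) (n : ℕ)
    (hM : Module.finrank K M = 3 ^ n)
    (hF : ∀ q : HeightOneSpectrum (𝓞 K), (∃ v : HeightOneSpectrum (𝓞 F),
      q.asIdeal.map (algebraMap (𝓞 K) (𝓞 F)) ≤ v.asIdeal ^ 2) → (3 : 𝓞 K) ∉ q.asIdeal ∧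
        (w - 2 ∉ q.asIdeal → ¬ 3 ∣ Nat.card (⟨0, 1 + 2 * Ideal.Quotient.mk q.asIdeal w,
          Ideal.Quotient.mk q.asIdeal w, -1, 0⟩ :
            WeierstrassCurve (𝓞 K ⧸ q.asIdeal)).toAffine.Point))
    (z : F) (hz : z = algebraMap K F w) :
    PPartQ 3 (⟨0, 1 + 2 * z, z, -1, 0⟩ : WeierstrassCurve F) ∧
      Nat.card (ShaP 3 (⟨0, 1 + 2 * z, z, -1, 0⟩ : WeierstrassCurve F)) = 1 ∧
      (∀ v : HeightOneSpectrum (𝓞 F),
        (tam (⟨0, 1 + 2 * z, z, -1, 0⟩ : WeierstrassCurve F) v).Coprime 3) ∧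
      (Nat.card (⟨0, 1 + 2 * z, z, -1, 0⟩ : WeierstrassCurve F).toAffine.Point).Coprime 3 := by
  obtain ⟨a, ha, h⟩ := S8.tower_trans K F M hK w hw n hM fun q hq =>
    ⟨(hF q hq).1, fun hpi => noroot_of_card w hw q (hF q hq).1 hpi ((hF q hq).2 hpi)⟩
  rw [← ha] at hz
  subst hz
  have hG : S5.Good F (algebraMap MP_1a91b9_ntT.K F MP_1a91b9_ntT.om) := S5.tower_good h
  have h1 := R3.ppartQ3 F h
  have hE : E49 F = S5.EC (algebraMap MP_1a91b9_ntT.K F MP_1a91b9_ntT.om) := by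
    simp only [E49, S5.EC, map_add, map_mul, map_one, map_ofNat]
  rw [hE] at h1
  exact ⟨h1, S9.card_shaThree hG, S9.tam_coprime hG.hom hG.odd, (S9.card_points3 hG).2⟩

/-- The formula for every entire continuation. -/
theorem PPartQ.formula {N : Type*} [Field N] [NumberField N] {p : ℕ} [Fact p.Prime]
    {W : WeierstrassCurve N} (h : PPartQ p W) {g : ℂ → ℂ} (hg : Differentiable ℂ g)
    (hgs : ∀ s : ℂ, 3 / 2 < s.re → g s = W.LSeries s) : FormulaQ p W g := by
  obtain ⟨g', q, hg', hgs', -, -, -, h1, h2, h3⟩ := h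
  have hgg : g = g' := entire_unique hg hg' fun s hs => by rw [hgs s hs, hgs' s hs]
  rw [hgg]
  exact ⟨q, h1, h2, h3⟩

end Pool.Agent.Lib.MP_1a91b9_ntT3.S9
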